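import Pool.Agent.Y743.CL.Fa

/-! # The central limit theorem for the `r`-th neighbours in dyadic blocks, all constants

The two theorems are those of `Pool.Agent.Y743.CL.Fa` with an arbitrary constant `B` in the
condition `r log r ≤ B log T`; the proofs are adapted from that file. -/

set_option autoImplicit false

open Filter Topology MeasureTheory Set

namespace Pool.Agent.Q173.NC

open SG (ord NZ)
open Pool.Agent.Y743.CL

theorem bU (B : ℝ) (hB : 1 ≤ B) (x ε : ℝ) (hε : 0 < ε) : ∀ᶠ r : ℕ in atTop, ∀ T : ℝ, 1 ≤ T →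
    r * Real.log r ≤ B * Real.log T →
    (((Finset.Ioc (NZ T) (NZ (2 * T))).filter (fun n => Ev x r n)).card : ℝ) ≤
      T * Real.log T / (2 * Real.pi) * (Ph x + ε) := by
  have hpi := Real.pi_pos
  filter_upwards [blockU B hB x ε hε, bigT B hB 10,
    (as6 x 0).eventually_ge_atTop 0] with r h1 h2 h3 T hT hrT
  have hT10 := h2 T hT hrT
  refine le_trans ?_ (h1 T hT hrT)
  have hsub : (Finset.Ioc (NZ T) (NZ (2 * T))).filter (fun n => Ev x r n) ⊆
      (Finset.Ioc (NZ T) (NZ (2 * T))).filter
      (fun n => ord (n + r) ≤ ord n + (r + x * lm r) * (2 * Real.pi / Real.log T)) := by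
    intro n hn
    rw [Finset.mem_filter] at hn ⊢
    refine ⟨hn.1, ?_⟩
    obtain ⟨hn1, hn2⟩ := hn
    rw [Finset.mem_Ioc] at hn1
    have hn0 : 1 ≤ n := by omega
    have hu : T < ord n := by
      by_contra hcon
      push Not at hcon
      have := (SG.ord_le_iff hn0 _).mp hcon
      omega
    have huv : ord n ≤ ord (n + r) := SG.ord_mono hn0 (by omega)
    have h4 := unf_lo (by linarith) huv
    have hLT : 0 < Real.log T := Real.log_pos (by linarith)
    have h5 : Real.log T ≤ Real.log (ord (n + r)) := Real.log_le_log (by linarith) (by linarith)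
    have h6 : (ord (n + r) - ord n) * Real.log T ≤ (ord (n + r) - ord n) * Real.log (ord (n + r)) :=
      mul_le_mul_of_nonneg_left h5 (by linarith)
    unfold Ev at hn2
    rw [← sub_div, div_le_iff₀ (by positivity)] at hn2
    have h7 : ord (n + r) - ord n ≤ (r + x * lm r) * (2 * Real.pi / Real.log T) := by
      rw [← mul_div_assoc, le_div_iff₀ hLT]
      linarith
    linarith
  exact_mod_cast Finset.card_le_card hsub

theorem bL (B : ℝ) (hB : 1 ≤ B) (x ε : ℝ) (hε : 0 < ε) : ∀ᶠ r : ℕ in atTop, ∀ T : ℝ, 1 ≤ T →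
    r * Real.log r ≤ B * Real.log T →
    (((Finset.Ioc (NZ T) (NZ (2 * T))).filter (fun n => ¬ Ev x r n)).card : ℝ) ≤
      T * Real.log T / (2 * Real.pi) * (1 - Ph x + ε) := by
  have hpi := Real.pi_pos
  obtain ⟨A0, hA0, hgrow⟩ := grow4
  filter_upwards [blockL B hB x ε hε, bigT B hB A0,
    (as6 x 0).eventually_ge_atTop 0, log_nat.eventually_ge_atTop (6 * B),
    (as1 x 0).eventually_le_const (show (0 : ℝ) < 1 by norm_num)] with r h1 h2 h3 h4 h5 T hT hrT
  have hTA := h2 T hT hrT
  refine le_trans ?_ (h1 T hT hrT)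
  have hr0 : (0 : ℝ) < r := by
    rcases Nat.eq_zero_or_pos r with h | h
    · rw [h] at h4; simp at h4; linarith
    · exact_mod_cast h
  rw [add_zero] at h3 h5
  rw [div_le_iff₀ hr0, one_mul] at h5
  obtain ⟨a, ha⟩ : ∃ a : ℝ, a = r + x * lm r := ⟨_, rfl⟩
  obtain ⟨L, hL⟩ : ∃ L : ℝ, L = Real.log T := ⟨_, rfl⟩
  have ha0 : 0 ≤ a := by rw [ha]; exact h3
  have ha2 : a ≤ 2 * r := by rw [ha]; linarith
  rw [← hL] at hrT
  have h6 : (r : ℝ) * (6 * B) ≤ r * Real.log r := mul_le_mul_of_nonneg_left h4 hr0.le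
  have h66 : 6 * (r : ℝ) ≤ L := by
    have h61 : B * (6 * r) ≤ B * L := by
      calc B * (6 * r) = (r : ℝ) * (6 * B) := by ring
        _ ≤ B * L := h6.trans hrT
    exact le_of_mul_le_mul_left h61 (by linarith)
  have h7 : 3 * a ≤ L := by linarith
  have hL0 : 0 < L := by linarith
  have hLT : L ≤ T := by
    rw [hL]
    have := Real.log_le_sub_one_of_pos (show 0 < T by linarith)
    linarith
  have hrT2 : (r : ℝ) ≤ 2 * T := by linarith
  have hsub : (Finset.Ioc (NZ T) (NZ (2 * T))).filter (fun n => ¬ Ev x r n) ⊆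
      (Finset.Ioc (NZ T) (NZ (2 * T))).filter
      (fun n => ord n + (r + x * lm r - 1) * (2 * Real.pi / Real.log T) < ord (n + r)) := by
    intro n hn
    rw [Finset.mem_filter] at hn ⊢
    refine ⟨hn.1, ?_⟩
    obtain ⟨hn1, hn2⟩ := hn
    rw [Finset.mem_Ioc] at hn1
    have hn0 : 1 ≤ n := by omega
    have hu : T < ord n := by
      by_contra hcon
      push Not at hcon
      have := (SG.ord_le_iff hn0 _).mp hcon
      omega
    have huv : ord n ≤ ord (n + r) := SG.ord_mono hn0 (by omega)
    have h8 := unf_hi (by linarith) huv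
    have h9 : n + r ≤ NZ (4 * T) := by
      have g1 := hgrow T hTA
      have g2 : (n : ℝ) ≤ NZ (2 * T) := by exact_mod_cast hn1.2
      have g3 : ((n + r : ℕ) : ℝ) ≤ NZ (4 * T) := by push_cast; linarith
      exact_mod_cast g3
    have h10 : ord (n + r) ≤ 4 * T := (SG.ord_le_iff (by omega) _).mpr h9
    have h11 : Real.log (ord (n + r)) ≤ L + 2 := by
      have g1 : Real.log (ord (n + r)) ≤ Real.log (4 * T) := Real.log_le_log (by linarith) h10
      have g2 : Real.log (4 * T) = 2 * Real.log 2 + L := by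
        rw [Real.log_mul (by norm_num) (by linarith), ← hL,
          show (4 : ℝ) = 2 ^ 2 by norm_num, Real.log_pow]
        norm_num
      have g3 := Real.log_two_lt_d9
      linarith
    have h12 : (ord (n + r) - ord n) * (Real.log (ord (n + r)) + 1) ≤ (ord (n + r) - ord n) * (L + 3) :=
      mul_le_mul_of_nonneg_left (by linarith) (by linarith)
    unfold Ev at hn2
    rw [← sub_div, not_le, lt_div_iff₀ (by positivity), ← ha] at hn2
    rw [← hL, ← ha]
    have h13 : a * (2 * Real.pi) < (ord (n + r) - ord n) * (L + 3) := by linarith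
    by_contra hcon
    push Not at hcon
    have h14 : ord (n + r) - ord n ≤ (a - 1) * (2 * Real.pi / L) := by linarith
    have h15 : (ord (n + r) - ord n) * (L + 3) ≤ (a - 1) * (2 * Real.pi / L) * (L + 3) :=
      mul_le_mul_of_nonneg_right h14 (by linarith)
    have h16 : (a - 1) * (2 * Real.pi / L) * (L + 3) = (2 * Real.pi) * ((a - 1) * (L + 3) / L) := by
      ring
    have h17 : (a - 1) * (L + 3) / L ≤ a := by
      rw [div_le_iff₀ hL0]
      nlinarith
    have h18 : (2 * Real.pi) * ((a - 1) * (L + 3) / L) ≤ (2 * Real.pi) * a :=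
      mul_le_mul_of_nonneg_left h17 (by positivity)
    linarith
  exact_mod_cast Finset.card_le_card hsub

end Pool.Agent.Q173.NC
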