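import Pool.Agent.Q173.NC.Blk
import Pool.Agent.Q31.GP.Base

/-! # From the dyadic blocks to all zeros -/

set_option autoImplicit false

open Filter Topology MeasureTheory Set

namespace Pool.Agent.Q173.NC

open SG (ord NZ)
open Pool.Agent.Y743.CL
open Pool.Agent.Q31.GP (X NZ_eq ord_asymp)

/-- the number of the indices up to `NZ T` with a property -/
noncomputable def cF (P : ℕ → Prop) [DecidablePred P] (T : ℝ) : ℕ :=
  ((Finset.Icc 1 (NZ T)).filter P).card

lemma NZ_mono {s t : ℝ} (h : s ≤ t) : NZ s ≤ NZ t := by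
  rcases Nat.eq_zero_or_pos (NZ s) with h0 | h0
  · omega
  · have h1 := (SG.ord_le_iff h0 s).2 le_rfl
    exact (SG.ord_le_iff h0 t).1 (h1.trans h)

lemma X_half {T : ℝ} (hT : 2 ≤ T) : X (T / 2) ≤ X T / 2 := by
  unfold X
  have hpi := Real.pi_pos
  have h1 : Real.log (T / 2) ≤ Real.log T := Real.log_le_log (by linarith) (by linarith)
  have h2 : 0 ≤ T / 2 / (2 * Real.pi) := by
    have : 0 ≤ T := by linarith
    positivity
  calc T / 2 / (2 * Real.pi) * Real.log (T / 2) ≤ T / 2 / (2 * Real.pi) * Real.log T :=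
        mul_le_mul_of_nonneg_left h1 h2
    _ = _ := by ring

lemma X_nonneg {T : ℝ} (hT : 1 ≤ T) : 0 ≤ X T := by
  unfold X
  have hpi := Real.pi_pos
  have := Real.log_nonneg hT
  positivity

lemma iter {P : ℕ → Prop} [DecidablePred P] {A U0 : ℝ} (hA : 0 ≤ A) (hU0 : 1 ≤ U0) (J : ℕ) :
    ∀ T : ℝ, U0 * 2 ^ J ≤ T →
    (∀ U : ℝ, U0 ≤ U → U ≤ T →
      (((Finset.Ioc (NZ U) (NZ (2 * U))).filter P).card : ℝ) ≤ X U * A) →
    (cF P T : ℝ) ≤ NZ (T / 2 ^ J) + A * X T * (1 - (1 / 2) ^ J) := by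
  induction J with
  | zero =>
    intro T hT _
    have h1 : cF P T ≤ NZ T := by
      unfold cF
      refine (Finset.card_filter_le _ _).trans ?_
      rw [Nat.card_Icc]
      omega
    have h2 : (cF P T : ℝ) ≤ NZ T := by exact_mod_cast h1
    simpa using h2
  | succ J ih =>
    intro T hT hblk
    have hp : (1 : ℝ) ≤ 2 ^ J := one_le_pow₀ (by norm_num)
    have hUJ : U0 ≤ U0 * 2 ^ J := le_mul_of_one_le_right (by linarith) hp
    have hT' : U0 * 2 ^ J ≤ T / 2 := by
      rw [pow_succ] at hT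
      linarith
    have hT1 : 1 ≤ T / 2 := by linarith
    have h1 := ih (T / 2) hT' (fun U h1 h2 => hblk U h1 (by linarith))
    have h2 := hblk (T / 2) (hUJ.trans hT') (by linarith)
    rw [show 2 * (T / 2) = T by ring] at h2
    have h3 : (cF P T : ℝ) ≤ cF P (T / 2) +
        (((Finset.Ioc (NZ (T / 2)) (NZ T)).filter P).card : ℝ) := by
      have hs : (Finset.Icc 1 (NZ T)).filter P ⊆ (Finset.Icc 1 (NZ (T / 2))).filter P ∪
          (Finset.Ioc (NZ (T / 2)) (NZ T)).filter P := by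
        intro n hn
        rw [Finset.mem_filter, Finset.mem_Icc] at hn
        rw [Finset.mem_union, Finset.mem_filter, Finset.mem_filter, Finset.mem_Icc,
          Finset.mem_Ioc]
        rcases le_or_gt n (NZ (T / 2)) with h | h
        · left; exact ⟨⟨hn.1.1, h⟩, hn.2⟩
        · right; exact ⟨⟨h, hn.1.2⟩, hn.2⟩
      have := (Finset.card_le_card hs).trans (Finset.card_union_le _ _)
      unfold cF
      exact_mod_cast this
    have h4 := X_half (T := T) (by linarith)
    have h5 : T / 2 / 2 ^ J = T / 2 ^ (J + 1) := by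
      rw [pow_succ]
      field_simp
    rw [h5] at h1
    have hX := X_nonneg (T := T / 2) hT1
    have hq : (0 : ℝ) ≤ 1 - (1 / 2) ^ J := by
      have : ((1 : ℝ) / 2) ^ J ≤ 1 := pow_le_one₀ (by norm_num) (by norm_num)
      linarith
    have h6 : A * X (T / 2) * (1 - (1 / 2) ^ J) + X (T / 2) * A ≤
        A * X T * (1 - (1 / 2) ^ (J + 1)) := by
      have e1 : A * X (T / 2) * (1 - (1 / 2) ^ J) + X (T / 2) * A =
          A * X (T / 2) * (2 - (1 / 2) ^ J) := by ring
      have e2 : A * X T * (1 - (1 / 2) ^ (J + 1)) = A * (X T / 2) * (2 - (1 / 2) ^ J) := by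
        rw [pow_succ]
        ring
      rw [e1, e2]
      apply mul_le_mul_of_nonneg_right _ (by linarith)
      exact mul_le_mul_of_nonneg_left h4 hA
    linarith

/-- the assembly -/
theorem glob (B : ℝ) (hB : 1 ≤ B) {P : ℕ → ℕ → Prop} [∀ r, DecidablePred (P r)] {A : ℝ}
    (hA : 0 ≤ A)
    (hP : ∀ ε : ℝ, 0 < ε → ∀ᶠ r : ℕ in atTop, ∀ T : ℝ, 1 ≤ T → r * Real.log r ≤ 4 * B * Real.log T →
      (((Finset.Ioc (NZ T) (NZ (2 * T))).filter (P r)).card : ℝ) ≤ X T * (A + ε))
    (ε : ℝ) (hε : 0 < ε) :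
    ∀ᶠ r : ℕ in atTop, ∀ N : ℕ, 1 ≤ N → r * Real.log r ≤ B * Real.log N →
      ((((Finset.Icc 1 N).filter (P r)).card : ℕ) : ℝ) ≤ (A + ε) * N := by
  have hpi := Real.pi_gt_three
  have hpi4 := Real.pi_lt_four
  obtain ⟨η, hη⟩ : ∃ η : ℝ, η = min 1 (ε / (8 * (A + 1))) := ⟨_, rfl⟩
  have hη0 : 0 < η := by rw [hη]; positivity
  have hη1 : η ≤ 1 := by rw [hη]; exact min_le_left _ _
  have hη2 : η * (8 * (A + 1)) ≤ ε := by
    have : η ≤ ε / (8 * (A + 1)) := by rw [hη]; exact min_le_right _ _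
    rwa [le_div_iff₀ (by positivity)] at this
  obtain ⟨J, hJ⟩ := exists_pow_lt_of_lt_one hη0 (by norm_num : (1 / 2 : ℝ) < 1)
  obtain ⟨T0, hT0, hNN⟩ := Pool.Agent.W54.TCF.NT_asymp' 1 one_pos
  obtain ⟨N0, hN0⟩ := (ord_asymp η hη0).exists_forall_of_atTop
  have hord := SG.ord_tendsto.eventually_ge_atTop ((max T0 1) * 4 ^ J * 4)
  obtain ⟨N1, hN1⟩ := hord.exists_forall_of_atTop
  have hbig : ∀ᶠ r : ℕ in atTop, B * Real.log (max (max (N0 : ℝ) N1) 1) < r * Real.log r := by
    have h1 : Tendsto (fun r : ℕ => (r : ℝ) * Real.log r) atTop atTop :=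
      (tendsto_natCast_atTop_atTop (R := ℝ)).atTop_mul_atTop₀ log_nat
    exact h1.eventually_gt_atTop _
  filter_upwards [hP η hη0, hbig] with r h1 h2 N hN hrN
  have hNr : (1 : ℝ) ≤ N := by exact_mod_cast hN
  have hNbig : max (max (N0 : ℝ) N1) 1 ≤ N := by
    by_contra hcon
    push Not at hcon
    have h3 : Real.log N ≤ Real.log (max (max (N0 : ℝ) N1) 1) :=
      Real.log_le_log (by linarith) hcon.le
    have h4 := mul_le_mul_of_nonneg_left h3 (by linarith : 0 ≤ B)
    linarith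
  have hNN0 : N0 ≤ N := by
    have : (N0 : ℝ) ≤ N := ((le_max_left _ _).trans (le_max_left _ _)).trans hNbig
    exact_mod_cast this
  have hNN1 : N1 ≤ N := by
    have : (N1 : ℝ) ≤ N := ((le_max_right _ _).trans (le_max_left _ _)).trans hNbig
    exact_mod_cast this
  obtain ⟨hX1, hX2⟩ := hN0 N hNN0
  have hT := hN1 N hNN1
  set T := ord N with hTd
  have hm1 : (1 : ℝ) ≤ max T0 1 := le_max_right _ _
  have hmT : T0 ≤ max T0 1 := le_max_left _ _
  have h4J : (1 : ℝ) ≤ 4 ^ J := one_le_pow₀ (by norm_num)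
  have hT4 : 4 * 4 ^ J ≤ T := by
    refine le_trans ?_ hT
    nlinarith
  have hT1 : 1 ≤ T := by linarith
  have h2J : (4 : ℝ) ^ J = 2 ^ J * 2 ^ J := by rw [← mul_pow]; norm_num
  have h2J1 : (1 : ℝ) ≤ 2 ^ J := one_le_pow₀ (by norm_num)
  have hlT : 0 < Real.log T := Real.log_pos (by linarith)
  -- heights of the blocks
  have hlogN : Real.log N ≤ 2 * Real.log T := by
    have h3 : (N : ℝ) ≤ T ^ 2 := by
      refine hX2.trans ?_
      unfold X
      have h4 : Real.log T ≤ T := by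
        have := Real.log_le_sub_one_of_pos (show 0 < T by linarith)
        linarith
      calc (1 + η) * (T / (2 * Real.pi) * Real.log T) ≤ 2 * (T / (2 * Real.pi) * T) := by
            gcongr
            linarith
        _ = T ^ 2 / Real.pi := by field_simp
        _ ≤ T ^ 2 := div_le_self (by positivity) (by linarith)
    have := Real.log_le_log (by linarith) h3
    rwa [Real.log_pow] at this
  have hblk : ∀ U : ℝ, T / 2 ^ J ≤ U → U ≤ T →
      (((Finset.Ioc (NZ U) (NZ (2 * U))).filter (P r)).card : ℝ) ≤ X U * (A + η) := by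
    intro U hU _
    have hU1 : 1 ≤ U := by
      refine le_trans ?_ hU
      rw [le_div_iff₀ (by positivity), one_mul]
      nlinarith
    apply h1 U hU1
    have h3 : Real.log T ≤ 2 * Real.log U := by
      have h4 : T ≤ U ^ 2 := by
        have h5 : (T / 2 ^ J) ^ 2 ≤ U ^ 2 := by
          apply pow_le_pow_left₀ _ hU
          positivity
        refine le_trans ?_ h5
        rw [div_pow, le_div_iff₀ (by positivity), ← pow_mul, mul_comm J 2, pow_mul]
        norm_num
        nlinarith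
      have := Real.log_le_log (by linarith) h4
      rwa [Real.log_pow] at this
    calc r * Real.log r ≤ B * Real.log N := hrN
      _ ≤ B * (2 * Real.log T) := by gcongr
      _ ≤ B * (2 * (2 * Real.log U)) := by gcongr
      _ = 4 * B * Real.log U := by ring
  have hU0 : 1 ≤ T / 2 ^ J := by
    rw [le_div_iff₀ (by positivity), one_mul]
    nlinarith
  have h3 := iter (P := P r) (A := A + η) (U0 := T / 2 ^ J) (by linarith) hU0 J T
    (by rw [div_mul_cancel₀ _ (by positivity)]) hblk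
  have h4 : (((Finset.Icc 1 N).filter (P r)).card : ℝ) ≤ cF (P r) T := by
    have hs : (Finset.Icc 1 N).filter (P r) ⊆ (Finset.Icc 1 (NZ T)).filter (P r) := by
      intro n hn
      rw [Finset.mem_filter, Finset.mem_Icc] at hn ⊢
      exact ⟨⟨hn.1.1, hn.1.2.trans (SG.le_NZ_ord hN)⟩, hn.2⟩
    unfold cF
    exact_mod_cast Finset.card_le_card hs
  have hTJ : T0 ≤ T / 2 ^ J := by
    rw [le_div_iff₀ (by positivity)]
    refine le_trans ?_ hT
    have h5 : (2 : ℝ) ^ J ≤ 4 ^ J := by rw [h2J]; nlinarith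
    have h6 : T0 * 2 ^ J ≤ max T0 1 * 4 ^ J := by
      calc T0 * 2 ^ J ≤ max T0 1 * 2 ^ J := by gcongr
        _ ≤ max T0 1 * 4 ^ J := by gcongr
    have : 0 ≤ max T0 1 * 4 ^ J := by positivity
    linarith
  have h5 : (NZ (T / 2 ^ J) : ℝ) ≤ 2 * X (T / 2 ^ J) := by
    have h6 := (hNN (T / 2 ^ J) hTJ).2
    rw [← NZ_eq] at h6
    unfold X
    linarith
  have h6 : X (T / 2 ^ J) ≤ X T * (1 / 2) ^ J := by
    unfold X
    have h7 : Real.log (T / 2 ^ J) ≤ Real.log T := by
      apply Real.log_le_log (by positivity)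
      exact div_le_self (by linarith) h2J1
    have h8 : 0 ≤ T / 2 ^ J / (2 * Real.pi) := by positivity
    calc T / 2 ^ J / (2 * Real.pi) * Real.log (T / 2 ^ J) ≤
        T / 2 ^ J / (2 * Real.pi) * Real.log T := mul_le_mul_of_nonneg_left h7 h8
      _ = _ := by
        rw [one_div, inv_pow]
        field_simp
  have hX0 : 0 ≤ X T := X_nonneg hT1
  have h7 : X T * (1 / 2) ^ J ≤ X T * η := mul_le_mul_of_nonneg_left hJ.le hX0
  have h8 : (A + η) * X T * (1 - (1 / 2) ^ J) ≤ (A + η) * X T := by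
    have h9 : 0 ≤ (A + η) * X T := by positivity
    apply mul_le_of_le_one_right h9
    have h10 : (0 : ℝ) ≤ (1 / 2) ^ J := by positivity
    linarith
  have h9 : ((((Finset.Icc 1 N).filter (P r)).card : ℕ) : ℝ) ≤ (A + 3 * η) * X T := by
    have e1 : (A + 3 * η) * X T = (A + η) * X T + 2 * (X T * η) := by ring
    rw [e1]
    linarith
  refine h9.trans ?_
  have h10 : (A + 3 * η) * X T ≤ (A + 3 * η) * ((1 + η) * N) := by
    apply mul_le_mul_of_nonneg_left hX1 (by positivity)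
  refine h10.trans ?_
  rw [← mul_assoc]
  apply mul_le_mul_of_nonneg_right _ (by linarith)
  have h11 : η * η ≤ 1 * η := mul_le_mul_of_nonneg_right hη1 hη0.le
  have h12 : (A + 3 * η) * (1 + η) = A + (A * η + 3 * η + 3 * (η * η)) := by ring
  have h13 : η * (8 * (A + 1)) = 8 * (A * η) + 8 * η := by ring
  have h14 : 0 ≤ A * η := by positivity
  rw [h12]
  linarith

/-- **the central limit theorem for the distances to the `r`-th neighbour** -/
theorem clt (B : ℝ) (x ε : ℝ) (hε : 0 < ε) : ∃ r0 : ℕ, ∀ r : ℕ, r0 ≤ r → ∀ N : ℕ,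
    r * Real.log r ≤ B * Real.log N →
    |(1 / N : ℝ) * ({n : ℕ | 1 ≤ n ∧ n ≤ N ∧ Ev x r n}.ncard : ℝ) - Ph x| ≤ ε := by
  classical
  wlog hB : 1 ≤ B generalizing B with H
  · obtain ⟨r0, h⟩ := H 1 le_rfl
    refine ⟨r0, fun r hr N hN => h r hr N (hN.trans ?_)⟩
    have : 0 ≤ Real.log N := Real.log_natCast_nonneg N
    nlinarith
  have hu := glob B hB (P := fun r n => Ev x r n) (A := Ph x) (Ph_nonneg x) (fun η hη => by
    filter_upwards [bU (4 * B) (by linarith) x η hη] with r h T hT hr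
    have := h T hT hr
    refine this.trans (le_of_eq ?_)
    unfold X
    ring) ε hε
  have hl := glob B hB (P := fun r n => ¬ Ev x r n) (A := 1 - Ph x)
    (by linarith [Ph_le_one x]) (fun η hη => by
    filter_upwards [bL (4 * B) (by linarith) x η hη] with r h T hT hr
    have := h T hT hr
    refine this.trans (le_of_eq ?_)
    unfold X
    ring) ε hε
  have hbig : ∀ᶠ r : ℕ in atTop, (0 : ℝ) < r * Real.log r := by
    have h1 : Tendsto (fun r : ℕ => (r : ℝ) * Real.log r) atTop atTop :=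
      (tendsto_natCast_atTop_atTop (R := ℝ)).atTop_mul_atTop₀ log_nat
    exact h1.eventually_gt_atTop _
  obtain ⟨r0, h0⟩ := ((hu.and hl).and hbig).exists_forall_of_atTop
  refine ⟨r0, fun r hr N hN => ?_⟩
  obtain ⟨⟨h1, h2⟩, h3⟩ := h0 r hr
  have hN1 : 1 ≤ N := by
    rcases Nat.eq_zero_or_pos N with h | h
    · rw [h] at hN
      simp at hN
      linarith
    · exact h
  have hNr : (0 : ℝ) < N := by exact_mod_cast hN1
  have h4 := h1 N hN1 hN
  have h5 := h2 N hN1 hN
  have e1 : ({n : ℕ | 1 ≤ n ∧ n ≤ N ∧ Ev x r n}.ncard : ℝ) =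
      (((Finset.Icc 1 N).filter (fun n => Ev x r n)).card : ℝ) := by
    rw [← Set.ncard_coe_finset]
    congr 2
    ext n
    simp [and_assoc]
  have e2 : (((Finset.Icc 1 N).filter (fun n => Ev x r n)).card : ℝ) +
      (((Finset.Icc 1 N).filter (fun n => ¬ Ev x r n)).card : ℝ) = N := by
    have := Finset.card_filter_add_card_filter_not (s := Finset.Icc 1 N) (fun n => Ev x r n)
    rw [Nat.card_Icc, Nat.add_sub_cancel] at this
    exact_mod_cast this
  rw [e1, abs_le]
  have h6 : (1 / N : ℝ) * (((Finset.Icc 1 N).filter (fun n => Ev x r n)).card : ℝ) ≤ Ph x + ε := by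
    rw [one_div, inv_mul_eq_div, div_le_iff₀ hNr]
    exact h4
  have h7 : Ph x - ε ≤ (1 / N : ℝ) * (((Finset.Icc 1 N).filter (fun n => Ev x r n)).card : ℝ) := by
    rw [one_div, inv_mul_eq_div, le_div_iff₀ hNr]
    have e3 : (Ph x - ε) * (N : ℝ) = N - (1 - Ph x + ε) * N := by ring
    rw [e3]
    linarith
  constructor <;> linarith

end Pool.Agent.Q173.NC
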